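import Pool.Agent.KDT.StmtsK

/-!
Squad KDT, row LMN (linear algebra).
-/

set_option autoImplicit false

namespace Pool.Agent.KDT.H33

theorem lmn : LmnStatement := by
  intro K _ n _ _ ι P hdet
  by_contra hno
  have hno' : ∀ c : n → K, (∀ i, ∑ e, c e * P i e = 0) → c = 0 := by
    intro c hc
    by_contra h
    exact hno ⟨c, h, hc⟩
  have htop : Submodule.span K (Set.range P) = ⊤ := by
    by_contra hne
    obtain ⟨f, hf, hle⟩ := Submodule.exists_le_ker_of_lt_top _ (lt_top_iff_ne_top.mpr hne)
    have key : ∀ v : n → K, f v = ∑ e, f (Pi.single e 1) * v e := by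
      intro v
      have h1 : v = ∑ e, v e • (Pi.single e (1 : K) : n → K) := by
        funext j
        rw [Finset.sum_apply, Finset.sum_eq_single j]
        · simp
        · intro b _ hb
          simp [Pi.single_eq_of_ne (Ne.symm hb)]
        · intro h
          exact absurd (Finset.mem_univ j) h
      conv_lhs => rw [h1]
      rw [map_sum]
      refine Finset.sum_congr rfl fun e _ => ?_
      rw [map_smul, smul_eq_mul, mul_comm]
    have hc := hno' (fun e => f (Pi.single e 1)) (fun i => by
      rw [← key (P i)]
      exact hle (Submodule.subset_span ⟨i, rfl⟩))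
    apply hf
    ext e
    have := congrFun hc e
    simpa using this
  have hfr : Module.finrank K (Submodule.span K (Set.range P)) = Fintype.card n := by
    rw [htop, finrank_top, Module.finrank_fintype_fun_eq_card]
  obtain ⟨g, hg1, -, hg3⟩ := Submodule.exists_fun_fin_finrank_span_eq K (Set.range P)
  choose s hs using hg1
  have e : n ≃ Fin (Module.finrank K (Submodule.span K (Set.range P))) :=
    (Fintype.equivFin n).trans (finCongr hfr.symm)
  have hli : LinearIndependent K (fun j : n => P (s (e j))) := by
    have h1 : (fun j : n => P (s (e j))) = g ∘ e := by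
      funext j
      exact hs (e j)
    rw [h1]
    exact hg3.comp _ e.injective
  have h2 := hdet (fun j => s (e j))
  have h3 : IsUnit (Matrix.of fun (j : n) (e' : n) => P (s (e j)) e') :=
    Matrix.linearIndependent_rows_iff_isUnit.mp hli
  rw [Matrix.isUnit_iff_isUnit_det, h2] at h3
  exact not_isUnit_zero h3

end Pool.Agent.KDT.H33
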